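import Pool.Agent.Q55.SM.Stm
import Pool.Agent.Helper819.Diag2
import Pool.Agent.Helper819.Sharp

/-!
# Project SM of helper55, job SM-DIAG (helper177): diagonal form of a map with an automorphism
-/

set_option autoImplicit false

open MvPolynomial

namespace Pool.Agent.Q177.SM

open Pool.Agent.Helper819.Dyn Pool.Agent.Helper819.Apolar Pool.Agent.Q55.SM

section ring

variable {R : Type} [CommRing R] {N d : ℕ}

theorem bind_diag (l : Fin (N + 1) → R) (m : Fin (N + 1) →₀ ℕ) (a : R) :
    bind₁ (fun j => C (l j) * X j) (monomial m a) = monomial m (a * ∏ j, l j ^ m j) := by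
  rw [bind₁_monomial]
  simp_rw [mul_pow]
  rw [Finset.prod_mul_distrib]
  have h1 : ∏ i ∈ m.support, (C (l i) : MvPolynomial (Fin (N + 1)) R) ^ m i =
      C (∏ j, l j ^ m j) := by
    rw [← Finset.prod_subset (Finset.subset_univ m.support), map_prod]
    · exact Finset.prod_congr rfl fun j _ => (map_pow _ _ _).symm
    · intro j _ hj
      rw [Finsupp.notMem_support_iff.1 hj, pow_zero]
  rw [h1, monomial_eq, Finsupp.prod, C_mul]
  ring

/-- entries of the action of a diagonal matrix -/
theorem actT_diag (l : Fin (N + 1) → R) (s : Ix N d → R) (p : Ix N d) :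
    actT (Matrix.diagonal l) s p =
      (∏ j ∈ Finset.univ.erase p.1, l j) * (∏ j, l j ^ p.2.1 j) * s p := by
  unfold actT cf act
  rw [Finset.sum_eq_single p.1]
  · have h1 : (fun a => ∑ m, C (Matrix.diagonal l a m) * X m) =
        (fun j => C (l j) * X j : Fin (N + 1) → MvPolynomial (Fin (N + 1)) R) := by
      funext a
      rw [Finset.sum_eq_single a]
      · rw [Matrix.diagonal_apply_eq]
      · intro b _ hb
        rw [Matrix.diagonal_apply_ne _ hb.symm]; simp
      · simp
    rw [h1, Matrix.adjugate_diagonal, Matrix.diagonal_apply_eq, coeff_C_mul]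
    unfold tup
    rw [map_sum]
    simp only [bind_diag]
    rw [coeff_sum, Finset.sum_eq_single p.2]
    · rw [coeff_monomial, if_pos rfl]; ring
    · intro b _ hb
      rw [coeff_monomial, if_neg (fun h => hb (Subtype.ext h))]
    · simp
  · intro j _ hj
    rw [Matrix.adjugate_diagonal, Matrix.diagonal_apply_ne _ hj.symm]; simp
  · simp

end ring

theorem diag : S_Diag := by
  intro k _ _ _ N d hd f hf hA
  obtain ⟨B, hB, hBt, c, hc⟩ := hA
  have hd0 : N + d ≠ 0 := by omega
  -- `c ≠ 0`
  have hc0 : c ≠ 0 := by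
    rintro rfl
    rw [zero_smul] at hc
    have h1 : f = 0 := by
      have h2 : actT B⁻¹ (actT B f) = f := by
        rw [actT_actT, Matrix.mul_nonsing_inv _ (Ne.isUnit hB), actT_one]
      rw [← h2, hc]
      have h3 := actT_smul (d := d) B⁻¹ (0 : k) 0
      simpa using h3
    have h2 := hf (fun _ => 1) (by
      intro i
      rw [h1]
      simp [tup])
    exact one_ne_zero (congrFun h2 0)
  obtain ⟨r, hr⟩ := IsAlgClosed.exists_pow_nat_eq c⁻¹ (Nat.pos_of_ne_zero hd0)
  have hr0 : r ≠ 0 := by
    rintro rfl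
    rw [zero_pow hd0] at hr
    exact inv_ne_zero hc0 hr.symm
  have hfix : actT (r • B) f = f := by
    rw [actT_smul_mat, hc, smul_smul, hr, inv_mul_cancel₀ hc0, one_smul]
  have hdet : (r • B).det ≠ 0 := by
    rw [Matrix.det_smul]
    exact mul_ne_zero (pow_ne_zero _ hr0) hB
  obtain ⟨g, l, hg, hgl⟩ := exists_diag hd hf (r • B) hdet hfix
  have hl : ∀ i, l i ≠ 0 := by
    have h1 := congrArg Matrix.det hgl
    rw [Matrix.det_mul, Matrix.det_mul, Matrix.det_diagonal] at h1
    have h2 : ∏ i, l i ≠ 0 := by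
      intro h
      rw [h, mul_zero] at h1
      exact mul_ne_zero hdet hg h1
    intro i hi
    exact h2 (Finset.prod_eq_zero (Finset.mem_univ i) hi)
  have hnc : ∃ i j, l i ≠ l j := by
    by_contra hcon
    push Not at hcon
    have h1 : Matrix.diagonal l = l 0 • (1 : Matrix (Fin (N + 1)) (Fin (N + 1)) k) := by
      rw [← Matrix.diagonal_one, ← Matrix.diagonal_smul]
      congr 1
      funext i
      simp [hcon i 0]
    rw [h1, Matrix.mul_smul, mul_one] at hgl
    have h2 : r • B = l 0 • 1 := by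
      have h3 := congrArg (· * g⁻¹) hgl
      simp only [Matrix.smul_mul, mul_assoc] at h3
      rw [Matrix.mul_nonsing_inv _ (Ne.isUnit hg), mul_one] at h3
      exact h3
    apply hBt (r⁻¹ * l 0)
    rw [mul_smul, ← h2, smul_smul, inv_mul_cancel₀ hr0, one_smul]
  have hfix2 : actT (Matrix.diagonal l) (actT g f) = actT g f := by
    rw [actT_actT, ← hgl, ← actT_actT, hfix]
  obtain ⟨s, hs⟩ := IsAlgClosed.exists_pow_nat_eq (∏ i, l i) (show 0 < d - 1 by omega)
  have hprod : ∏ i, l i ≠ 0 := Finset.prod_ne_zero_iff.2 fun i _ => hl i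
  have hs0 : s ≠ 0 := by
    rintro rfl
    rw [zero_pow (by omega)] at hs
    exact hprod hs.symm
  refine ⟨g, hg, s • l, fun i => mul_ne_zero hs0 (hl i), ?_, ?_⟩
  · obtain ⟨i, j, hij⟩ := hnc
    exact ⟨i, j, fun h => hij (mul_left_cancel₀ hs0 h)⟩
  · intro p hp
    rw [mem_bad] at hp
    by_contra hne
    apply hp
    have h1 := congrFun hfix2 p
    rw [actT_diag] at h1
    have h2 : (∏ j ∈ Finset.univ.erase p.1, l j) * (∏ j, l j ^ p.2.1 j) = 1 := by
      apply mul_right_cancel₀ hne
      rw [h1, one_mul]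
    have h3 : l p.1 * ∏ j ∈ Finset.univ.erase p.1, l j = ∏ j, l j :=
      Finset.mul_prod_erase _ _ (Finset.mem_univ _)
    have h4 : (∏ j, l j) * (∏ j, l j ^ p.2.1 j) = l p.1 := by
      rw [← h3, mul_assoc, h2, mul_one]
    simp only [Pi.smul_apply, smul_eq_mul, mul_pow]
    rw [Finset.prod_mul_distrib, Finset.prod_pow_eq_pow_sum]
    have hdeg : ∑ j, p.2.1 j = d := by
      have h5 := (mem_Ex p.2.1).mp p.2.2
      rw [Finsupp.degree_eq_sum] at h5
      exact h5
    have h6 : s ^ d = s * s ^ (d - 1) := by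
      rw [← pow_succ']
      congr 1
      omega
    rw [hdeg, h6, hs, mul_assoc, h4]

end Pool.Agent.Q177.SM
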