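import Pool.Agent.Q177.SM.Dg

/-!
# Project SM of helper55, job SM-GEN (helper177): hypersurfaces contain maps without automorphisms
-/

set_option autoImplicit false

open MvPolynomial

namespace Pool.Agent.Q177.SM

open Pool.Agent.Helper819.Dyn Pool.Agent.Helper819.Apolar Pool.Agent.Q55.SM

section blocks

variable {k : Type} {N : ℕ}

open Classical in
/-- the block diagonal part of a matrix -/
noncomputable def blk {R : Type} [Zero R] (l : Fin (N + 1) → k)
    (M : Matrix (Fin (N + 1)) (Fin (N + 1)) R) : Matrix (Fin (N + 1)) (Fin (N + 1)) R :=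
  Matrix.of fun i j => if l i = l j then M i j else 0

theorem blk_eq {R : Type} [Zero R] (l : Fin (N + 1) → k)
    (M : Matrix (Fin (N + 1)) (Fin (N + 1)) R) {i j : Fin (N + 1)} (h : l i = l j) :
    blk l M i j = M i j := by
  classical
  unfold blk
  rw [Matrix.of_apply, if_pos h]

theorem blk_ne {R : Type} [Zero R] (l : Fin (N + 1) → k)
    (M : Matrix (Fin (N + 1)) (Fin (N + 1)) R) {i j : Fin (N + 1)} (h : l i ≠ l j) :
    blk l M i j = 0 := by
  classical
  unfold blk
  rw [Matrix.of_apply, if_neg h]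

theorem blk_mul {R : Type} [CommRing R] (l : Fin (N + 1) → k)
    (D X : Matrix (Fin (N + 1)) (Fin (N + 1)) R) (hD : ∀ i j, l i ≠ l j → D i j = 0) :
    blk l (D * X) = D * blk l X := by
  ext i j
  rw [Matrix.mul_apply]
  by_cases h : l i = l j
  · rw [blk_eq l _ h, Matrix.mul_apply]
    refine Finset.sum_congr rfl fun m _ => ?_
    by_cases hm : l m = l j
    · rw [blk_eq l _ hm]
    · rw [blk_ne l _ hm, hD i m (fun h' => hm (h'.symm.trans h)), zero_mul, zero_mul]
  · rw [blk_ne l _ h]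
    symm
    apply Finset.sum_eq_zero
    intro m _
    by_cases hm : l m = l j
    · rw [hD i m (fun h' => h (h'.trans hm)), zero_mul]
    · rw [blk_ne l _ hm, mul_zero]

theorem blk_one {R : Type} [CommRing R] (l : Fin (N + 1) → k) :
    blk l (1 : Matrix (Fin (N + 1)) (Fin (N + 1)) R) = 1 := by
  ext i j
  by_cases h : l i = l j
  · rw [blk_eq l _ h]
  · rw [blk_ne l _ h, Matrix.one_apply_ne (fun h' => h (congrArg l h'))]

theorem blk_map {R S : Type} [CommRing R] [CommRing S] (φ : R →+* S) (l : Fin (N + 1) → k)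
    (M : Matrix (Fin (N + 1)) (Fin (N + 1)) R) : (blk l M).map φ = blk l (M.map φ) := by
  ext i j
  rw [Matrix.map_apply]
  by_cases h : l i = l j
  · rw [blk_eq l _ h, blk_eq l _ h, Matrix.map_apply]
  · rw [blk_ne l _ h, blk_ne l _ h, map_zero]

theorem blk_comm {R : Type} [CommRing R] (l : Fin (N + 1) → R)
    (M : Matrix (Fin (N + 1)) (Fin (N + 1)) R) :
    blk l M * Matrix.diagonal l = Matrix.diagonal l * blk l M := by
  ext i j
  rw [Matrix.mul_diagonal, Matrix.diagonal_mul]
  by_cases h : l i = l j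
  · rw [h, mul_comm]
  · rw [blk_ne l _ h, zero_mul, mul_zero]

theorem blk_decomp {K : Type} [Field K] (l : Fin (N + 1) → k)
    (M : Matrix (Fin (N + 1)) (Fin (N + 1)) K) (h : (blk l M).det ≠ 0) :
    ∃ X, M = blk l M * X ∧ blk l X = 1 := by
  have hu : IsUnit (blk l M).det := Ne.isUnit h
  have h1 : M = blk l M * ((blk l M)⁻¹ * M) := by
    rw [← mul_assoc, Matrix.mul_nonsing_inv _ hu, one_mul]
  refine ⟨(blk l M)⁻¹ * M, h1, ?_⟩
  have h2 := blk_mul l (blk l M) ((blk l M)⁻¹ * M) (fun i j hij => blk_ne l M hij)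
  have h3 : blk l (blk l M * ((blk l M)⁻¹ * M)) = blk l M := congrArg (blk l) h1.symm
  rw [h3] at h2
  have h4 := congrArg (fun Z => (blk l M)⁻¹ * Z) h2
  simp only [← mul_assoc] at h4
  rw [Matrix.nonsing_inv_mul _ hu, one_mul] at h4
  exact h4.symm

end blocks

variable {k : Type} [Field k] {N d : ℕ}

theorem memS_iff (l : Fin (N + 1) → k) (hl : ∀ i, l i ≠ 0) (s : Ix N d → k) :
    (∀ p ∈ bad (d := d) l, s p = 0) ↔ actT (Matrix.diagonal l) s = (∏ j, l j) • s := by
  have h3 : ∀ i, l i * ∏ j ∈ Finset.univ.erase i, l j = ∏ j, l j := fun i =>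
    Finset.mul_prod_erase _ _ (Finset.mem_univ _)
  have hE : ∀ i, ∏ j ∈ Finset.univ.erase i, l j ≠ 0 := fun i =>
    Finset.prod_ne_zero_iff.2 fun j _ => hl j
  constructor
  · intro h
    funext p
    rw [actT_diag, Pi.smul_apply, smul_eq_mul, ← h3 p.1]
    by_cases hp : p ∈ bad (d := d) l
    · rw [h p hp]; ring
    · rw [mem_bad, not_not] at hp
      rw [hp]; ring
  · intro h p hp
    rw [mem_bad] at hp
    have h1 := congrFun h p
    rw [actT_diag, Pi.smul_apply, smul_eq_mul, ← h3 p.1] at h1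
    by_contra hne
    apply hp
    apply mul_left_cancel₀ (hE p.1)
    apply mul_right_cancel₀ hne
    rw [h1]; ring

theorem memS_blk (l : Fin (N + 1) → k) (hl : ∀ i, l i ≠ 0) (M : Matrix (Fin (N + 1)) (Fin (N + 1)) k)
    (s : Ix N d → k) (hs : ∀ p ∈ bad (d := d) l, s p = 0) :
    ∀ p ∈ bad (d := d) l, actT (blk l M) s p = 0 := by
  rw [memS_iff l hl] at hs ⊢
  rw [actT_actT, blk_comm, ← actT_actT, hs, actT_smul]

theorem vanish_all [Infinite k] (l : Fin (N + 1) → k) (hl : ∀ i, l i ≠ 0) (P : SS k N d)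
    (hP : ∀ X : Matrix (Fin (N + 1)) (Fin (N + 1)) k, blk l X = 1 → ∀ s : Ix N d → k,
      (∀ p ∈ bad (d := d) l, s p = 0) → eval (actT X s) P = 0)
    (M : Matrix (Fin (N + 1)) (Fin (N + 1)) k) (s : Ix N d → k)
    (hs : ∀ p ∈ bad (d := d) l, s p = 0) : eval (actT M s) P = 0 := by
  have hev : ∀ A : Matrix (Fin (N + 1)) (Fin (N + 1)) k,
      eval (ent A) (blk l (gm k N)).det = (blk l A).det := by
    intro A
    rw [RingHom.map_det, RingHom.mapMatrix_apply, blk_map, gm_map]
  have h0 : (blk l (gm k N)).det ≠ 0 := by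
    intro h
    have h1 := hev 1
    rw [h, blk_one, Matrix.det_one, map_zero] at h1
    exact zero_ne_one h1
  have key : aeval (orb s) P * (blk l (gm k N)).det = 0 := by
    apply MvPolynomial.funext
    intro x
    obtain ⟨A, rfl⟩ := ent_surj x
    rw [map_mul, map_zero, eval_aeval_orb, hev]
    by_cases hA : (blk l A).det = 0
    · rw [hA, mul_zero]
    · obtain ⟨X, hX1, hX2⟩ := blk_decomp l A hA
      have h2 : actT A s = actT X (actT (blk l A) s) := by
        rw [actT_actT, ← hX1]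
      rw [h2, hP X hX2 _ (memS_blk l hl A s hs), zero_mul]
  have h1 := (mul_eq_zero.mp key).resolve_right h0
  rw [← eval_aeval_orb, h1, map_zero]

theorem dep {σ ι : Type} [Fintype σ] [Fintype ι] (hc : Fintype.card σ < Fintype.card ι)
    (Φ : ι → MvPolynomial σ k) : ∃ Q : MvPolynomial ι k, Q ≠ 0 ∧ aeval Φ Q = 0 := by
  by_contra hcon
  push Not at hcon
  have hind : AlgebraicIndependent k Φ := by
    rw [algebraicIndependent_iff]
    intro f hf
    by_contra hne
    exact hcon f hne hf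
  have h1 := hind.lift_cardinalMk_le_trdeg
  rw [MvPolynomial.trdeg_of_isDomain] at h1
  have h2 : Fintype.card ι ≤ Fintype.card σ := by simpa using h1
  omega

theorem not_dvd_rename (J : SS k N d) (p0 : Ix N d) (hp0 : p0 ∈ J.vars)
    (Q : MvPolynomial {p : Ix N d // p ≠ p0} k) (hQ : Q ≠ 0) :
    ¬ J ∣ rename Subtype.val Q := by
  classical
  rintro ⟨q, hq⟩
  have hr : rename Subtype.val Q ≠ 0 := by
    intro h
    exact hQ (rename_injective _ Subtype.val_injective (by rw [h, map_zero]))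
  have hJ : J ≠ 0 := by
    rintro rfl
    simp at hp0
  have hq0 : q ≠ 0 := by
    rintro rfl
    rw [mul_zero] at hq
    exact hr hq
  have h1 : p0 ∉ (rename Subtype.val Q : SS k N d).vars := by
    intro h
    have h2 := vars_rename Subtype.val Q h
    rw [Finset.mem_image] at h2
    obtain ⟨x, _, hx⟩ := h2
    exact x.2 hx
  rw [mem_vars_iff_degreeOf_ne_zero, not_not, hq, degreeOf_mul_eq hJ hq0] at h1
  rw [mem_vars_iff_degreeOf_ne_zero] at hp0
  omega

open Classical in
theorem exists_P [Infinite k] (h1 : S_Q) (hN : 2 ≤ N) (hd : 2 ≤ d) (J : SS k N d)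
    (p0 : Ix N d) (hp0 : p0 ∈ J.vars) (l : Fin (N + 1) → k) (hl : ∀ i, l i ≠ 0)
    (hnc : ∃ i j, l i ≠ l j) :
    ∃ P : SS k N d, ¬ J ∣ P ∧ ∀ (M : Matrix (Fin (N + 1)) (Fin (N + 1)) k) (s : Ix N d → k),
      (∀ p ∈ bad (d := d) l, s p = 0) → eval (actT M s) P = 0 := by
  let σ : Type := {q : Fin (N + 1) × Fin (N + 1) // q ∈ off l} ⊕ {p : Ix N d // p ∉ bad (d := d) l}
  let G : Matrix (Fin (N + 1)) (Fin (N + 1)) (MvPolynomial σ k) := Matrix.of fun i j =>
    if h : (i, j) ∈ off l then X (Sum.inl ⟨(i, j), h⟩) else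
      (1 : Matrix (Fin (N + 1)) (Fin (N + 1)) (MvPolynomial σ k)) i j
  let t : Ix N d → MvPolynomial σ k := fun p =>
    if h : p ∈ bad (d := d) l then 0 else X (Sum.inr ⟨p, h⟩)
  let Φ : Ix N d → MvPolynomial σ k := actT G t
  have hcard : Fintype.card σ < Fintype.card {p : Ix N d // p ≠ p0} := by
    have a1 := h1 hN hd l hl hnc
    have a2 : Fintype.card σ = (off l).card + (Fintype.card (Ix N d) - (bad (d := d) l).card) := by
      change Fintype.card ({q : Fin (N + 1) × Fin (N + 1) // q ∈ off l} ⊕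
        {p : Ix N d // p ∉ bad (d := d) l}) = _
      rw [Fintype.card_sum, Fintype.card_coe, Fintype.card_subtype_compl, Fintype.card_coe]
    have a3 : Fintype.card {p : Ix N d // p ≠ p0} = Fintype.card (Ix N d) - 1 := by
      rw [Fintype.card_subtype_compl]
      simp
    have a4 : (bad (d := d) l).card ≤ Fintype.card (Ix N d) := Finset.card_le_univ _
    omega
  obtain ⟨Q, hQ0, hQ⟩ := dep (k := k) hcard (fun p => Φ p.1)
  refine ⟨rename Subtype.val Q, not_dvd_rename J p0 hp0 Q hQ0, ?_⟩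
  apply vanish_all l hl
  intro X' hX s hs
  let x : σ → k := Sum.elim (fun q => X' q.1.1 q.1.2) (fun p => s p.1)
  have hG : G.map (eval x) = X' := by
    ext i j
    rw [Matrix.map_apply]
    change eval x (if h : (i, j) ∈ off l then X (Sum.inl ⟨(i, j), h⟩) else
      (1 : Matrix (Fin (N + 1)) (Fin (N + 1)) (MvPolynomial σ k)) i j) = _
    by_cases h : (i, j) ∈ off l
    · rw [dif_pos h, eval_X]
      rfl
    · rw [dif_neg h]
      rw [mem_off, not_not] at h
      have h2 : blk l X' i j = X' i j := blk_eq l X' h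
      rw [← h2, hX]
      by_cases hij : i = j
      · rw [hij, Matrix.one_apply_eq, Matrix.one_apply_eq, map_one]
      · rw [Matrix.one_apply_ne hij, Matrix.one_apply_ne hij, map_zero]
  have ht : (fun p => eval x (t p)) = s := by
    funext p
    change eval x (if h : p ∈ bad (d := d) l then 0 else X (Sum.inr ⟨p, h⟩)) = _
    by_cases h : p ∈ bad (d := d) l
    · rw [dif_pos h, map_zero, hs p h]
    · rw [dif_neg h, eval_X]
      rfl
  have hΦ : ∀ p, eval x (Φ p) = actT X' s p := by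
    intro p
    have h3 := map_actT (eval x) G t p
    rw [hG, ht] at h3
    exact h3
  rw [eval_rename]
  have h4 : eval x (bind₁ (fun p : {p : Ix N d // p ≠ p0} => Φ p.1) Q) =
      eval (fun p : {p : Ix N d // p ≠ p0} => eval x (Φ p.1)) Q := eval_bind' _ _ _
  rw [← aeval_eq_bind₁, hQ, map_zero] at h4
  have h5 : (actT X' s ∘ Subtype.val) = fun p : {p : Ix N d // p ≠ p0} => eval x (Φ p.1) := by
    funext p
    exact (hΦ p.1).symm
  rw [h5]
  exact h4.symm

open Classical in
theorem gen (h1 : S_Q) (h2 : S_Diag) : S_Gen := by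
  intro k _ _ _ N d hN hd J b f hJ hfJ hfb hb
  have hinf : Infinite k := IsAlgClosed.instInfinite
  by_contra hcon
  push Not at hcon
  have hJp : Prime J := hJ.prime
  obtain ⟨p0, hp0⟩ : ∃ p0, p0 ∈ J.vars := by
    by_contra hcon2
    push Not at hcon2
    have h3 : J.vars = ∅ := Finset.eq_empty_of_forall_notMem hcon2
    rw [vars_eq_empty_iff_eq_C] at h3
    have h4 : coeff 0 J = 0 := by
      have h5 : eval f J = coeff 0 J := by
        conv_lhs => rw [h3]
        rw [eval_C]
      rw [← h5, hfJ]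
    rw [h4, C_0] at h3
    exact hJp.ne_zero h3
  let adm : Finset (Ix N d) → Prop := fun S =>
    ∃ l : Fin (N + 1) → k, (∀ i, l i ≠ 0) ∧ (∃ i j, l i ≠ l j) ∧ bad (d := d) l = S
  have hex : ∀ S : Finset (Ix N d), ∃ P : SS k N d, ¬ J ∣ P ∧ (adm S →
      ∀ (M : Matrix (Fin (N + 1)) (Fin (N + 1)) k) (s : Ix N d → k),
        (∀ p ∈ S, s p = 0) → eval (actT M s) P = 0) := by
    intro S
    by_cases hS : adm S
    · obtain ⟨l, hl, hnc, rfl⟩ := hS
      obtain ⟨P, hP1, hP2⟩ := exists_P h1 hN hd J p0 hp0 l hl hnc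
      exact ⟨P, hP1, fun _ => hP2⟩
    · refine ⟨1, fun h => hJ.not_isUnit (isUnit_of_dvd_one h), fun h => absurd h hS⟩
  choose P hP1 hP2 using hex
  have hvan : ∀ x : Ix N d → k, eval x J = 0 → eval x ((∏ S, P S) * b) = 0 := by
    intro x hx
    rw [map_mul]
    by_cases hbx : eval x b = 0
    · rw [hbx, mul_zero]
    · obtain ⟨A, hA, l, hl, hnc, hbad⟩ := h2 hd x (hb x hbx) (hcon x hx hbx)
      have h3 : x = actT A⁻¹ (actT A x) := by
        rw [actT_actT, Matrix.mul_nonsing_inv _ (Ne.isUnit hA), actT_one]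
      have h4 : eval x (P (bad (d := d) l)) = 0 := by
        rw [h3]
        exact hP2 _ ⟨l, hl, hnc, rfl⟩ _ _ hbad
      rw [map_prod, Finset.prod_eq_zero (Finset.mem_univ (bad (d := d) l)) h4, zero_mul]
  have hdvd : J ∣ (∏ S, P S) * b := by
    haveI : (Ideal.span {J} : Ideal (SS k N d)).IsPrime :=
      (Ideal.span_singleton_prime hJp.ne_zero).2 hJp
    have h3 : (∏ S, P S) * b ∈ vanishingIdeal k (zeroLocus k (Ideal.span {J} : Ideal (SS k N d))) := by
      intro x hx
      rw [mem_zeroLocus_iff] at hx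
      have h4 := hx J (Ideal.mem_span_singleton_self J)
      rw [aeval_eq_eval] at h4 ⊢
      exact hvan x h4
    rw [IsPrime.vanishingIdeal_zeroLocus] at h3
    exact Ideal.mem_span_singleton.1 h3
  rcases hJp.dvd_or_dvd hdvd with h | h
  · rw [hJp.dvd_finset_prod_iff] at h
    obtain ⟨S, _, hS⟩ := h
    exact hP1 S hS
  · obtain ⟨q, hq⟩ := h
    apply hfb
    rw [hq, map_mul, hfJ, zero_mul]

end Pool.Agent.Q177.SM
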